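import Mathlib
import Pool.Agent.Results.MP_1195b1_lc.OracleLowerBound

set_option autoImplicit false

/-!
Randomized value-oracle algorithms for skew-supermodular colouring.
-/

namespace Pool.Agent.Y591.SK

open Pool.Agent.Results.MP_1195b1_lc.OracleLowerBound (QueryAlg IsInput Feasible oracle)
open scoped ENNReal

/-- A randomized algorithm for inputs with ground set `Fin n`: a probability distribution on
deterministic adaptive procedures which ask for values of `p₁` (question `(false, X)`) and of `p₂`
(question `(true, X)`) and output a Boolean. -/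
abbrev RandAlg (n : ℕ) : Type := PMF (QueryAlg (Bool × Finset (Fin n)) ℤ Bool)

/-- The probability that the output is `b` when the value oracles are given by `f`. -/
noncomputable def probability {n : ℕ} (D : RandAlg n) (f : Bool × Finset (Fin n) → ℤ)
    (b : Bool) : ℝ≥0∞ :=
  D.toOuterMeasure {T | T.run f = b}

/-- The expected number of oracle calls when the value oracles are given by `f`. -/
noncomputable def expectedCalls {n : ℕ} (D : RandAlg n) (f : Bool × Finset (Fin n) → ℤ) : ℝ≥0∞ :=
  ∑' T : QueryAlg (Bool × Finset (Fin n)) ℤ Bool, D T * (T.calls f : ℝ≥0∞)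

/-- On the given input the algorithm gives the wrong answer to the question whether a feasible
partition exists with probability at most `δ`. -/
def ErrorAtMost {n : ℕ} (D : RandAlg n) (m₁ m₂ n₁ n₂ : ℕ) (p₁ p₂ : Finset (Fin n) → ℤ)
    (δ : ℝ≥0∞) : Prop :=
  (Feasible n m₁ m₂ n₁ n₂ p₁ p₂ → probability D (oracle p₁ p₂) false ≤ δ) ∧
  (¬ Feasible n m₁ m₂ n₁ n₂ p₁ p₂ → probability D (oracle p₁ p₂) true ≤ δ)

/-- Intersecting supermodular integer set functions on the ground set `Fin n`. -/
def IntersectingSupermodular {n : ℕ} (p : Finset (Fin n) → ℤ) : Prop :=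
  ∀ X Y : Finset (Fin n), (X ∩ Y).Nonempty → p X + p Y ≤ p (X ∩ Y) + p (X ∪ Y)

end Pool.Agent.Y591.SK
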