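import Mathlib
import Pool.Agent.Y591.SK.Defs

set_option autoImplicit false

/-!
The adversary argument for randomized value-oracle algorithms, and counting of hidden sets.
-/

namespace Pool.Agent.Y591.SK

open Finset
open Pool.Agent.Results.MP_1195b1_lc.OracleLowerBound (QueryAlg IsInput Feasible oracle)
open scoped ENNReal Classical

section Generic

variable {Q A Out κ : Type}

theorem card_changed (T : QueryAlg Q A Out) (f : Q → A) (G : κ → Q → A) (K : Finset κ) (m : ℕ)
    (hm : ∀ q, (K.filter (fun a => G a q ≠ f q)).card ≤ m) :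
    (K.filter (fun a => T.run (G a) ≠ T.run f)).card ≤ T.calls f * m := by
  induction T with
  | output o =>
    have : K.filter (fun a => (QueryAlg.output o : QueryAlg Q A Out).run (G a)
        ≠ (QueryAlg.output o : QueryAlg Q A Out).run f) = ∅ := by
      apply filter_eq_empty_iff.2
      intro a _ h
      exact h rfl
    rw [this]
    simp
  | query q next ih =>
    have hcalls : (QueryAlg.query q next).calls f = (next (f q)).calls f + 1 := rfl
    rw [hcalls, add_mul, one_mul]
    have hsub : K.filter (fun a => (QueryAlg.query q next).run (G a)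
        ≠ (QueryAlg.query q next).run f) ⊆
        (K.filter (fun a => (next (f q)).run (G a) ≠ (next (f q)).run f)) ∪
        (K.filter (fun a => G a q ≠ f q)) := by
      intro a ha
      rw [mem_filter] at ha
      rw [mem_union, mem_filter, mem_filter]
      by_cases hq : G a q = f q
      · left
        refine ⟨ha.1, fun h => ha.2 ?_⟩
        change (next (G a q)).run (G a) = (next (f q)).run f
        rw [hq, h]
      · right
        exact ⟨ha.1, hq⟩
    have h1 := card_le_card hsub
    have h2 := card_union_le (K.filter (fun a => (next (f q)).run (G a) ≠ (next (f q)).run f))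
      (K.filter (fun a => G a q ≠ f q))
    have h3 := ih (f q)
    have h4 := hm q
    omega

end Generic

variable {n : ℕ} {κ : Type}

theorem probability_eq (D : RandAlg n) (f : Bool × Finset (Fin n) → ℤ) (b : Bool) :
    probability D f b = ∑' T, D T * (if T.run f = b then 1 else 0) := by
  unfold probability
  rw [PMF.toOuterMeasure_apply]
  apply tsum_congr
  intro T
  unfold Set.indicator
  by_cases h : T.run f = b
  · simp [h]
  · simp [h]

theorem probability_add (D : RandAlg n) (f : Bool × Finset (Fin n) → ℤ) :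
    probability D f true + probability D f false = 1 := by
  rw [probability_eq, probability_eq, ← ENNReal.tsum_add, ← D.tsum_coe]
  apply tsum_congr
  intro T
  cases h : T.run f <;> simp [h]

theorem sum_probability_le (D : RandAlg n) (f : Bool × Finset (Fin n) → ℤ)
    (G : κ → Bool × Finset (Fin n) → ℤ) (K : Finset κ) (m : ℕ)
    (hm : ∀ q, (K.filter (fun a => G a q ≠ f q)).card ≤ m) (b : Bool) :
    ∑ a ∈ K, probability D (G a) b ≤
      (m : ℝ≥0∞) * expectedCalls D f + (K.card : ℝ≥0∞) * probability D f b := by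
  have h1 : ∀ a ∈ K, probability D (G a) b =
      ∑' T, D T * (if T.run (G a) = b then 1 else 0) :=
    fun a _ => probability_eq D (G a) b
  rw [sum_congr rfl h1, ← Summable.tsum_finsetSum (fun _ _ => ENNReal.summable)]
  have h2 : (m : ℝ≥0∞) * expectedCalls D f + (K.card : ℝ≥0∞) * probability D f b =
      ∑' T, D T * ((T.calls f * m : ℕ) + (K.card : ℝ≥0∞) * (if T.run f = b then 1 else 0)) := by
    rw [probability_eq, ← ENNReal.tsum_mul_left]
    unfold expectedCalls
    rw [← ENNReal.tsum_mul_left, ← ENNReal.tsum_add]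
    apply tsum_congr
    intro T
    push_cast
    ring
  rw [h2]
  apply ENNReal.tsum_le_tsum
  intro T
  rw [← mul_sum, sum_boole]
  apply mul_le_mul_right
  have h3' := card_changed T f G K m (fun q => by
    refine le_trans (le_of_eq ?_) (hm q)
    congr)
  have h3 : (K.filter (fun a => T.run (G a) ≠ T.run f)).card ≤ T.calls f * m := by
    refine le_trans (le_of_eq ?_) h3'
    congr
  by_cases hb : T.run f = b
  · rw [if_pos hb, mul_one]
    have h4 : (K.filter (fun a => T.run (G a) = b)).card ≤ K.card := card_filter_le _ _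
    have h5 : ((K.filter (fun a => T.run (G a) = b)).card : ℝ≥0∞) ≤ K.card := by exact_mod_cast h4
    exact h5.trans le_add_self
  · rw [if_neg hb, mul_zero, add_zero]
    have h4 : K.filter (fun a => T.run (G a) = b) ⊆ K.filter (fun a => T.run (G a) ≠ T.run f) := by
      intro a ha
      rw [mem_filter] at ha ⊢
      exact ⟨ha.1, fun h => hb (h.symm.trans ha.2)⟩
    have h5 := (card_le_card h4).trans h3
    exact_mod_cast h5

/-- the adversary argument: one side of the error suffices to be bounded on each input -/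
theorem adversary (D : RandAlg n) (f : Bool × Finset (Fin n) → ℤ)
    (G : κ → Bool × Finset (Fin n) → ℤ) (K : Finset κ) (m : ℕ)
    (hm : ∀ q, (K.filter (fun a => G a q ≠ f q)).card ≤ m) (δ : ℝ≥0∞)
    (h0 : probability D f false ≤ δ) (h1 : ∀ a ∈ K, probability D (G a) true ≤ δ) :
    (1 - 2 * δ) * (K.card : ℝ≥0∞) ≤ (m : ℝ≥0∞) * expectedCalls D f := by
  have e1 : (K.card : ℝ≥0∞) ≤ ∑ a ∈ K, probability D (G a) false + (K.card : ℝ≥0∞) * δ := by
    have : (K.card : ℝ≥0∞) = ∑ a ∈ K, (probability D (G a) true + probability D (G a) false) := by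
      rw [sum_congr rfl (fun a _ => probability_add D (G a)), sum_const, nsmul_eq_mul, mul_one]
    calc (K.card : ℝ≥0∞)
        = ∑ a ∈ K, (probability D (G a) true + probability D (G a) false) := this
      _ = ∑ a ∈ K, probability D (G a) false + ∑ a ∈ K, probability D (G a) true := by
          rw [sum_add_distrib, add_comm]
      _ ≤ ∑ a ∈ K, probability D (G a) false + ∑ _a ∈ K, δ :=
          add_le_add le_rfl (sum_le_sum h1)
      _ = ∑ a ∈ K, probability D (G a) false + (K.card : ℝ≥0∞) * δ := by
          rw [sum_const, nsmul_eq_mul]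
  have e2 := sum_probability_le D f G K m hm false
  have e3 : (K.card : ℝ≥0∞) ≤ (m : ℝ≥0∞) * expectedCalls D f + 2 * δ * (K.card : ℝ≥0∞) := by
    calc (K.card : ℝ≥0∞) ≤ ∑ a ∈ K, probability D (G a) false + (K.card : ℝ≥0∞) * δ := e1
      _ ≤ ((m : ℝ≥0∞) * expectedCalls D f + (K.card : ℝ≥0∞) * δ) + (K.card : ℝ≥0∞) * δ :=
          add_le_add (e2.trans (add_le_add le_rfl (mul_le_mul_right h0 _))) le_rfl
      _ = (m : ℝ≥0∞) * expectedCalls D f + 2 * δ * (K.card : ℝ≥0∞) := by ring
  rw [ENNReal.sub_mul (fun _ _ => ENNReal.natCast_ne_top _), one_mul]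
  exact tsub_le_iff_right.2 e3

/-- the number of hidden sets containing a large set -/
theorem count_sup {S : Type} [DecidableEq S] (R X : Finset S) (a x : ℕ) (hX : x ≤ X.card) :
    ((powersetCard a R).filter (fun B => X ⊆ B)).card ≤ (R.card - x).choose (a - x) := by
  obtain ⟨Y, hYX, hY⟩ := exists_subset_card_eq hX
  by_cases hne : ((powersetCard a R).filter (fun B => X ⊆ B)).Nonempty
  · obtain ⟨B0, hB0⟩ := hne
    rw [mem_filter, mem_powersetCard] at hB0
    have hYR : Y ⊆ R := hYX.trans (hB0.2.trans hB0.1.1)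
    have h1 : (powersetCard (a - x) (R \ Y)).card = (R.card - x).choose (a - x) := by
      rw [card_powersetCard, card_sdiff_of_subset hYR, hY]
    rw [← h1]
    apply card_le_card_of_injOn (fun B => B \ Y)
    · intro B hB
      rw [mem_coe, mem_filter, mem_powersetCard] at hB
      rw [mem_coe, mem_powersetCard]
      refine ⟨sdiff_subset_sdiff hB.1.1 (Subset.refl _), ?_⟩
      rw [card_sdiff_of_subset (hYX.trans hB.2), hB.1.2, hY]
    · intro B hB B' hB' h
      rw [mem_coe, mem_filter, mem_powersetCard] at hB hB'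
      have h2 := sdiff_union_of_subset (hYX.trans hB.2)
      have h3 := sdiff_union_of_subset (hYX.trans hB'.2)
      rw [← h2, ← h3]
      change B \ Y = B' \ Y at h
      rw [h]
  · rw [not_nonempty_iff_eq_empty] at hne
    rw [hne, card_empty]
    exact Nat.zero_le _

theorem choose_ratio (x : ℕ) : ∀ ρ a : ℕ, 4 * a ≤ 3 * ρ → x ≤ a →
    4 ^ x * (ρ - x).choose (a - x) ≤ 3 ^ x * ρ.choose a := by
  induction x with
  | zero => intro ρ a _ _; simp
  | succ x ih =>
    intro ρ a h1 h2
    obtain ⟨a', rfl⟩ : ∃ a', a = a' + 1 := ⟨a - 1, by omega⟩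
    obtain ⟨ρ', rfl⟩ : ∃ ρ', ρ = ρ' + 1 := ⟨ρ - 1, by omega⟩
    have h3 := ih ρ' a' (by omega) (by omega)
    have h4 := Nat.add_one_mul_choose_eq ρ' a'
    have e1 : ρ' + 1 - (x + 1) = ρ' - x := by omega
    have e2 : a' + 1 - (x + 1) = a' - x := by omega
    rw [e1, e2]
    -- `4 * choose ρ' a' ≤ 3 * choose (ρ' + 1) (a' + 1)`
    have h5 : 4 * ρ'.choose a' ≤ 3 * (ρ' + 1).choose (a' + 1) := by
      have h6 : (ρ' + 1) * (4 * ρ'.choose a') ≤ (ρ' + 1) * (3 * (ρ' + 1).choose (a' + 1)) := by
        calc (ρ' + 1) * (4 * ρ'.choose a') = 4 * ((ρ' + 1) * ρ'.choose a') := by ring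
          _ = 4 * ((ρ' + 1).choose (a' + 1) * (a' + 1)) := by rw [h4]
          _ = (4 * (a' + 1)) * (ρ' + 1).choose (a' + 1) := by ring
          _ ≤ (3 * (ρ' + 1)) * (ρ' + 1).choose (a' + 1) := Nat.mul_le_mul_right _ h1
          _ = (ρ' + 1) * (3 * (ρ' + 1).choose (a' + 1)) := by ring
      exact Nat.le_of_mul_le_mul_left h6 (by omega)
    calc 4 ^ (x + 1) * (ρ' - x).choose (a' - x)
        = 4 * (4 ^ x * (ρ' - x).choose (a' - x)) := by ring
      _ ≤ 4 * (3 ^ x * ρ'.choose a') := Nat.mul_le_mul_left _ h3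
      _ = 3 ^ x * (4 * ρ'.choose a') := by ring
      _ ≤ 3 ^ x * (3 * (ρ' + 1).choose (a' + 1)) := Nat.mul_le_mul_left _ h5
      _ = 3 ^ (x + 1) * (ρ' + 1).choose (a' + 1) := by ring

end Pool.Agent.Y591.SK
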