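import Mathlib
import Pool.Agent.Y591.SK.Defs
import Pool.Agent.Results.MP_1195b1_lc.MatroidIntersection

set_option autoImplicit false

/-!
The hard instances.
-/

namespace Pool.Agent.Y591.SK

open Finset
open Pool.Agent.Results.MP_1195b1_lc.OracleLowerBound (QueryAlg IsInput Feasible oracle
  SkewSupermodular pBase skew_base)

variable {n : ℕ}

/-- The function with the hidden set `A` and the requirement `r`. -/
def pHid (r : ℤ) (A X : Finset (Fin n)) : ℤ :=
  if X ⊆ A then max (- (X.card : ℤ)) (r - ((A \ X).card : ℤ)) else - (X.card : ℤ)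

/-- The function `|X|` on the subsets `X` of one of the first `b` blocks of `k` consecutive
elements, and `|X| - n` on the other sets. -/
def pBlk (b k : ℕ) (X : Finset (Fin n)) : ℤ :=
  if ∃ j < b, ∀ x ∈ X, x.val / k = j then (X.card : ℤ) else (X.card : ℤ) - n

lemma pHid_ge (r : ℤ) (A X : Finset (Fin n)) : - (X.card : ℤ) ≤ pHid r A X := by
  unfold pHid
  split_ifs
  · exact le_max_left _ _
  · exact le_rfl

lemma pHid_ge' (r : ℤ) (A X : Finset (Fin n)) (h : X ⊆ A) :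
    r - ((A \ X).card : ℤ) ≤ pHid r A X := by
  unfold pHid
  rw [if_pos h]
  exact le_max_right _ _

lemma pHid_cases (r : ℤ) (A X : Finset (Fin n)) :
    pHid r A X = - (X.card : ℤ) ∨ (X ⊆ A ∧ pHid r A X = r - ((A \ X).card : ℤ)) := by
  unfold pHid
  split_ifs with h
  · rcases max_choice (- (X.card : ℤ)) (r - ((A \ X).card : ℤ)) with h' | h'
    · left; exact h'
    · right; exact ⟨h, h'⟩
  · left; rfl

lemma skew_hid (r : ℤ) (A : Finset (Fin n)) : SkewSupermodular (pHid r A) := by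
  have mixed : ∀ X Y : Finset (Fin n), X ⊆ A → pHid r A X = r - ((A \ X).card : ℤ) →
      pHid r A Y = - (Y.card : ℤ) →
      pHid r A X + pHid r A Y ≤ pHid r A (X \ Y) + pHid r A (Y \ X) := by
    intro X Y hX h1 h2
    have h3 := pHid_ge' r A (X \ Y) (Finset.sdiff_subset.trans hX)
    have h4 := pHid_ge r A (Y \ X)
    have h5 : (A \ (X \ Y)).card = (A \ X).card + (X ∩ Y).card := by
      rw [← Finset.card_union_of_disjoint]
      · congr 1
        ext x
        simp only [Finset.mem_sdiff, Finset.mem_union, Finset.mem_inter]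
        constructor
        · rintro ⟨ha, hb⟩
          by_cases hx : x ∈ X
          · right
            refine ⟨hx, ?_⟩
            by_contra hy
            exact hb ⟨hx, hy⟩
          · left; exact ⟨ha, hx⟩
        · rintro (⟨ha, hb⟩ | ⟨ha, hb⟩)
          · exact ⟨ha, fun h => hb h.1⟩
          · exact ⟨hX ha, fun h => h.2 hb⟩
      · rw [Finset.disjoint_left]
        intro x hx hx'
        exact (Finset.mem_sdiff.mp hx).2 (Finset.mem_inter.mp hx').1
    have h6 : (Y \ X).card + (X ∩ Y).card = Y.card := by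
      rw [Finset.inter_comm]
      exact Finset.card_sdiff_add_card_inter Y X
    rw [h1, h2]
    rw [h5] at h3
    push_cast at h3
    have h7 : ((Y \ X).card : ℤ) + (X ∩ Y).card = Y.card := by exact_mod_cast h6
    linarith
  intro X Y
  rcases pHid_cases r A X with hX | ⟨hXA, hX⟩ <;> rcases pHid_cases r A Y with hY | ⟨hYA, hY⟩
  · right
    have h1 := pHid_ge r A (X \ Y)
    have h2 := pHid_ge r A (Y \ X)
    have h3 : ((X \ Y).card : ℤ) ≤ X.card := by
      exact_mod_cast Finset.card_le_card Finset.sdiff_subset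
    have h4 : ((Y \ X).card : ℤ) ≤ Y.card := by
      exact_mod_cast Finset.card_le_card Finset.sdiff_subset
    rw [hX, hY]
    linarith
  · right
    have := mixed Y X hYA hY hX
    linarith
  · right
    exact mixed X Y hXA hX hY
  · left
    have h1 := pHid_ge' r A (X ∩ Y) (Finset.inter_subset_left.trans hXA)
    have h2 := pHid_ge' r A (X ∪ Y) (Finset.union_subset hXA hYA)
    have h3 : (A \ (X ∩ Y)).card + (A \ (X ∪ Y)).card = (A \ X).card + (A \ Y).card := by
      rw [Finset.sdiff_inter_distrib_right, Finset.sdiff_union_distrib]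
      exact Finset.card_union_add_card_inter _ _
    rw [hX, hY]
    have h4 : ((A \ (X ∩ Y)).card : ℤ) + (A \ (X ∪ Y)).card = (A \ X).card + (A \ Y).card := by
      exact_mod_cast h3
    linarith

lemma pHid_le (r : ℕ) (A X : Finset (Fin n)) (hA : r ≤ A.card) :
    pHid r A X ≤ min (X.card : ℤ) r := by
  rcases pHid_cases r A X with h | ⟨hXA, h⟩
  · rw [h]
    exact le_min (by omega) (by omega)
  · rw [h]
    have h1 : (A \ X).card + X.card = A.card := Finset.card_sdiff_add_card_eq_card hXA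
    exact le_min (by omega) (by omega)

/-- Away from the large subsets of `A` the hidden set is not visible. -/
lemma pHid_visible (r : ℕ) (A X : Finset (Fin n)) (h : pHid r A X ≠ pBase X) :
    X ⊆ A ∧ A.card < 2 * X.card + r := by
  rcases pHid_cases r A X with h' | ⟨hXA, h'⟩
  · exact absurd h' h
  · refine ⟨hXA, ?_⟩
    have h0 := pHid_ge r A X
    have h1 : (A \ X).card + X.card = A.card := Finset.card_sdiff_add_card_eq_card hXA
    have h2 : pHid r A X ≠ - (X.card : ℤ) := h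
    omega

section Blocks

lemma pBlk_in {b k : ℕ} {X : Finset (Fin n)} (h : ∃ j < b, ∀ x ∈ X, x.val / k = j) :
    pBlk b k X = X.card := if_pos h

lemma pBlk_out {b k : ℕ} {X : Finset (Fin n)} (h : ¬ ∃ j < b, ∀ x ∈ X, x.val / k = j) :
    pBlk b k X = (X.card : ℤ) - n := if_neg h

lemma pBlk_ge (b k : ℕ) (X : Finset (Fin n)) : (X.card : ℤ) - n ≤ pBlk b k X := by
  unfold pBlk
  split_ifs <;> omega

lemma inter_blk (b k : ℕ) (X Y : Finset (Fin n)) (hXY : (X ∩ Y).Nonempty) :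
    pBlk b k X + pBlk b k Y ≤ pBlk b k (X ∩ Y) + pBlk b k (X ∪ Y) := by
  obtain ⟨z, hz⟩ := hXY
  rw [mem_inter] at hz
  have hc := Finset.card_union_add_card_inter X Y
  by_cases hX : ∃ j < b, ∀ x ∈ X, x.val / k = j <;>
    by_cases hY : ∃ j < b, ∀ x ∈ Y, x.val / k = j
  · obtain ⟨i, hi, hXi⟩ := id hX
    obtain ⟨j, hj, hYj⟩ := id hY
    have hij : i = j := (hXi z hz.1).symm.trans (hYj z hz.2)
    subst hij
    rw [pBlk_in hX, pBlk_in hY,
      pBlk_in (X := X ∩ Y) ⟨i, hi, fun x hx => hXi x (mem_inter.1 hx).1⟩,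
      pBlk_in (X := X ∪ Y) ⟨i, hi, fun x hx => (mem_union.1 hx).elim (hXi x) (hYj x)⟩]
    omega
  · have h1 : pBlk b k (X ∩ Y) = (X ∩ Y).card := by
      apply pBlk_in
      obtain ⟨j, hj, h⟩ := hX
      exact ⟨j, hj, fun x hx => h x (mem_inter.1 hx).1⟩
    have h2 := pBlk_ge b k (X ∪ Y)
    rw [pBlk_in hX, pBlk_out hY, h1]
    omega
  · have h1 : pBlk b k (X ∩ Y) = (X ∩ Y).card := by
      apply pBlk_in
      obtain ⟨j, hj, h⟩ := hY
      exact ⟨j, hj, fun x hx => h x (mem_inter.1 hx).2⟩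
    have h2 := pBlk_ge b k (X ∪ Y)
    rw [pBlk_out hX, pBlk_in hY, h1]
    omega
  · have h1 := pBlk_ge b k (X ∩ Y)
    have h2 := pBlk_ge b k (X ∪ Y)
    rw [pBlk_out hX, pBlk_out hY]
    omega

lemma skew_blk (b k : ℕ) : SkewSupermodular (pBlk (n := n) b k) := by
  intro X Y
  by_cases h : (X ∩ Y).Nonempty
  · left
    exact inter_blk b k X Y h
  · right
    have hd : Disjoint X Y := by
      rw [Finset.disjoint_iff_inter_eq_empty]
      exact not_nonempty_iff_eq_empty.1 h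
    rw [Finset.sdiff_eq_self_of_disjoint hd, Finset.sdiff_eq_self_of_disjoint hd.symm]

/-- the blocks -/
def blk (n k j : ℕ) : Finset (Fin n) := univ.filter (fun x : Fin n => x.val / k = j)

lemma mem_blk {k j : ℕ} (hk : 0 < k) (x : ℕ) : x / k = j ↔ j * k ≤ x ∧ x < (j + 1) * k := by
  rw [← Nat.le_div_iff_mul_le hk, ← Nat.div_lt_iff_lt_mul hk]
  omega

lemma blk_card_le {k : ℕ} (hk : 0 < k) (j : ℕ) : (blk n k j).card ≤ k := by
  have h : (blk n k j).card ≤ (Ico (j * k) ((j + 1) * k)).card := by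
    apply card_le_card_of_injOn (fun x => x.val)
    · intro x hx
      rw [mem_coe, blk, mem_filter] at hx
      rw [mem_coe, mem_Ico]
      exact (mem_blk hk _).1 hx.2
    · intro x _ y _ h
      exact Fin.ext h
  rw [Nat.card_Ico] at h
  have : (j + 1) * k - j * k = k := by
    rw [add_mul, one_mul]; omega
  omega

lemma blk_card {k : ℕ} (hk : 0 < k) {j : ℕ} (hj : (j + 1) * k ≤ n) : (blk n k j).card = k := by
  have h : (blk n k j).card = (Ico (j * k) ((j + 1) * k)).card := by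
    apply card_bij (fun x _ => x.val)
    · intro x hx
      rw [blk, mem_filter] at hx
      rw [mem_Ico]
      exact (mem_blk hk _).1 hx.2
    · intro x _ y _ h
      exact Fin.ext h
    · intro y hy
      rw [mem_Ico] at hy
      refine ⟨⟨y, by omega⟩, ?_, rfl⟩
      rw [blk, mem_filter]
      exact ⟨mem_univ _, (mem_blk hk _).2 hy⟩
  rw [h, Nat.card_Ico]
  rw [add_mul, one_mul]; omega

lemma pBlk_le {b k : ℕ} (hk : 0 < k) (X : Finset (Fin n)) :
    pBlk b k X ≤ min (X.card : ℤ) k := by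
  by_cases h : ∃ j < b, ∀ x ∈ X, x.val / k = j
  · rw [pBlk_in h]
    obtain ⟨j, hj, hX⟩ := h
    have h1 : X ⊆ blk n k j := by
      intro x hx
      rw [blk, mem_filter]
      exact ⟨mem_univ _, hX x hx⟩
    have h2 := card_le_card h1
    have h3 := blk_card_le (n := n) hk j
    exact le_min le_rfl (by exact_mod_cast h2.trans h3)
  · rw [pBlk_out h]
    have h1 := card_le_univ X
    rw [Fintype.card_fin] at h1
    exact le_min (by omega) (by omega)

/-- the initial part -/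
def ini (n c : ℕ) : Finset (Fin n) := univ.filter (fun x : Fin n => x.val < c)

/-- the rest -/
def rst (n c : ℕ) : Finset (Fin n) := univ.filter (fun x : Fin n => ¬ x.val < c)

lemma ini_card {c : ℕ} (hc : c ≤ n) : (ini n c).card = c := by
  have h : (ini n c).card = (range c).card := by
    apply card_bij (fun x _ => x.val)
    · intro x hx
      rw [ini, mem_filter] at hx
      rw [mem_range]
      exact hx.2
    · intro x _ y _ h
      exact Fin.ext h
    · intro y hy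
      rw [mem_range] at hy
      refine ⟨⟨y, by omega⟩, ?_, rfl⟩
      rw [ini, mem_filter]
      exact ⟨mem_univ _, hy⟩
  rw [h, card_range]

lemma rst_card {c : ℕ} (hc : c ≤ n) : (rst n c).card = n - c := by
  have h1 := ini_card hc
  have h2 : (ini n c).card + (rst n c).card = n := by
    unfold ini rst
    rw [card_filter_add_card_filter_not, card_univ, Fintype.card_fin]
  omega

end Blocks

section Inputs

variable {m₁ m₂ n₁ n₂ : ℕ}

lemma input_base (hm₁ : 0 < m₁) (hm₂ : 0 < m₂) (hn₁ : 0 < n₁) (hn₂ : 0 < n₂)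
    (hn : m₁ * n₁ + m₂ * n₂ = n) :
    IsInput n m₁ m₂ n₁ n₂ pBase (pBlk n₂ (m₁ + m₂)) := by
  refine ⟨hm₁, hm₂, hn₁, hn₂, hn, skew_base, skew_blk _ _, fun X => ?_⟩
  apply max_le
  · unfold pBase
    apply le_min <;> omega
  · exact pBlk_le (by omega) X

lemma input_hid (hm₁ : 0 < m₁) (hm₂ : 0 < m₂) (hn₁ : 0 < n₁) (hn₂ : 0 < n₂)
    (hn : m₁ * n₁ + m₂ * n₂ = n) (A : Finset (Fin n)) (hA : m₁ + 1 ≤ A.card) :
    IsInput n m₁ m₂ n₁ n₂ (pHid ((m₁ + 1 : ℕ) : ℤ) A) (pBlk n₂ (m₁ + m₂)) := by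
  refine ⟨hm₁, hm₂, hn₁, hn₂, hn, skew_hid _ _, skew_blk _ _, fun X => ?_⟩
  apply max_le
  · refine (pHid_le (m₁ + 1) A X hA).trans ?_
    apply min_le_min le_rfl
    push_cast
    omega
  · exact pBlk_le (by omega) X

/-- the linear programming characterization -/
lemma feasible_iff {p₁ p₂ : Finset (Fin n) → ℤ} (h : IsInput n m₁ m₂ n₁ n₂ p₁ p₂)
    (hle : n₂ ≤ n₁) : Feasible n m₁ m₂ n₁ n₂ p₁ p₂ ↔
      ∃ y : Fin n → ℝ, (∀ s, 0 ≤ y s ∧ y s ≤ 1) ∧ ∑ s, y s = ((m₂ * n₂ : ℕ) : ℝ) ∧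
        ∀ X : Finset (Fin n), (p₁ X : ℝ) - m₁ ≤ ∑ s ∈ X, y s ∧
          (p₂ X : ℝ) - m₁ ≤ ∑ s ∈ X, y s := by
  have h' : Pool.Agent.Results.MP_1195b1_lc.MatroidIntersection.IsInput m₁ m₂ n₁ n₂ p₁ p₂ :=
    ⟨h.hm₁, h.hm₂, h.hn₁, h.hn₂, by rw [Fintype.card_fin]; exact h.size, h.skew₁, h.skew₂,
      h.bound⟩
  exact ((Pool.Agent.Results.MP_1195b1_lc.MatroidIntersection.result m₁ m₂ n₁ n₂ p₁ p₂ h').2
    hle).2.2

lemma size_le (hle : n₂ ≤ n₁) (hn : m₁ * n₁ + m₂ * n₂ = n) : n₂ * (m₁ + m₂) ≤ n := by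
  have h1 : m₁ * n₂ ≤ m₁ * n₁ := Nat.mul_le_mul_left _ hle
  have h2 : n₂ * (m₁ + m₂) = m₁ * n₂ + m₂ * n₂ := by ring
  omega

lemma feasible_base (hm₁ : 0 < m₁) (hm₂ : 0 < m₂) (hn₁ : 0 < n₁) (hn₂ : 0 < n₂)
    (hle : n₂ ≤ n₁) (hn : m₁ * n₁ + m₂ * n₂ = n) :
    Feasible n m₁ m₂ n₁ n₂ pBase (pBlk n₂ (m₁ + m₂)) := by
  rw [feasible_iff (input_base hm₁ hm₂ hn₁ hn₂ hn) hle]
  have hk : 0 < m₁ + m₂ := by omega
  have hkR : (0 : ℝ) < ((m₁ + m₂ : ℕ) : ℝ) := by exact_mod_cast hk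
  have hq0 : (0 : ℝ) ≤ (m₂ : ℝ) / ((m₁ + m₂ : ℕ) : ℝ) := by positivity
  have hq1 : (m₂ : ℝ) / ((m₁ + m₂ : ℕ) : ℝ) ≤ 1 := by
    rw [div_le_one hkR]
    push_cast
    have : (0 : ℝ) ≤ m₁ := by positivity
    linarith
  set q : ℝ := (m₂ : ℝ) / ((m₁ + m₂ : ℕ) : ℝ) with hq
  have hqk : q * ((m₁ + m₂ : ℕ) : ℝ) = m₂ := by
    rw [hq]
    field_simp
  refine ⟨fun x => if x.val < n₂ * (m₁ + m₂) then q else 0, fun s => ?_, ?_, fun X => ?_⟩
  · dsimp only
    split_ifs
    · exact ⟨hq0, hq1⟩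
    · exact ⟨le_rfl, by norm_num⟩
  · rw [← sum_filter, sum_const]
    have h1 := ini_card (size_le (m₁ := m₁) (m₂ := m₂) hle hn)
    unfold ini at h1
    rw [h1, nsmul_eq_mul]
    push_cast at hqk ⊢
    calc (n₂ : ℝ) * (m₁ + m₂) * q = n₂ * (q * (m₁ + m₂)) := by ring
      _ = n₂ * m₂ := by rw [hqk]
      _ = m₂ * n₂ := by ring
  · have hnn : 0 ≤ ∑ s ∈ X, (if s.val < n₂ * (m₁ + m₂) then q else 0) := by
      apply sum_nonneg
      intro s _
      split_ifs
      · exact hq0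
      · exact le_rfl
    have hm₁R : (0 : ℝ) ≤ m₁ := by positivity
    have hXR : (0 : ℝ) ≤ X.card := by positivity
    constructor
    · refine le_trans ?_ hnn
      unfold pBase
      push_cast
      linarith
    · by_cases h : ∃ j < n₂, ∀ x ∈ X, x.val / (m₁ + m₂) = j
      · have hle' := pBlk_le (b := n₂) hk X
        rw [pBlk_in h] at hle' ⊢
        have h1 : X.card ≤ m₁ + m₂ := by
          have := hle'.trans (min_le_right _ _)
          exact_mod_cast this
        obtain ⟨j, hj, hX⟩ := h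
        have h2 : ∑ s ∈ X, (if s.val < n₂ * (m₁ + m₂) then q else 0) = X.card * q := by
          rw [← nsmul_eq_mul, ← sum_const]
          apply sum_congr rfl
          intro s hs
          rw [if_pos]
          rw [← Nat.div_lt_iff_lt_mul hk, hX s hs]
          exact hj
        rw [h2]
        have h3 : (X.card : ℝ) ≤ ((m₁ + m₂ : ℕ) : ℝ) := by exact_mod_cast h1
        have h4 : (X.card : ℝ) * (1 - q) ≤ ((m₁ + m₂ : ℕ) : ℝ) * (1 - q) :=
          mul_le_mul_of_nonneg_right h3 (by linarith)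
        have h5 : ((m₁ + m₂ : ℕ) : ℝ) * (1 - q) = m₁ := by
          rw [mul_sub, mul_one, mul_comm, hqk]
          push_cast
          ring
        push_cast
        linarith
      · refine le_trans ?_ hnn
        rw [pBlk_out h]
        have h1 := card_le_univ X
        rw [Fintype.card_fin] at h1
        have h2 : (X.card : ℝ) ≤ n := by exact_mod_cast h1
        push_cast
        linarith

lemma infeasible_hid (hm₁ : 0 < m₁) (hm₂ : 0 < m₂) (hn₁ : 0 < n₁) (hn₂ : 0 < n₂)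
    (hle : n₂ ≤ n₁) (hn : m₁ * n₁ + m₂ * n₂ = n) (A : Finset (Fin n))
    (hA : m₁ + 1 ≤ A.card) (hAR : A ⊆ rst n (n₂ * (m₁ + m₂))) :
    ¬ Feasible n m₁ m₂ n₁ n₂ (pHid ((m₁ + 1 : ℕ) : ℤ) A) (pBlk n₂ (m₁ + m₂)) := by
  rw [feasible_iff (input_hid hm₁ hm₂ hn₁ hn₂ hn A hA) hle]
  rintro ⟨y, hy, hsum, hX⟩
  have hk : 0 < m₁ + m₂ := by omega
  have hsz := size_le (m₁ := m₁) (m₂ := m₂) hle hn
  have h1 : (1 : ℝ) ≤ ∑ s ∈ A, y s := by
    refine le_trans ?_ (hX A).1
    have h2 := pHid_ge' ((m₁ + 1 : ℕ) : ℤ) A A (Subset.refl _)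
    rw [Finset.sdiff_self, card_empty] at h2
    have h3 : (((m₁ + 1 : ℕ) : ℤ) : ℝ) - ((0 : ℕ) : ℤ) ≤
        ((pHid ((m₁ + 1 : ℕ) : ℤ) A A : ℤ) : ℝ) := by exact_mod_cast h2
    push_cast at h3 ⊢
    linarith
  have h2 : ∀ j ∈ range n₂, (m₂ : ℝ) ≤
      ∑ x ∈ (ini n (n₂ * (m₁ + m₂))).filter (fun x => x.val / (m₁ + m₂) = j), y x := by
    intro j hj
    rw [mem_range] at hj
    have e1 : (ini n (n₂ * (m₁ + m₂))).filter (fun x => x.val / (m₁ + m₂) = j) =
        blk n (m₁ + m₂) j := by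
      unfold ini blk
      ext x
      rw [mem_filter, mem_filter, mem_filter]
      constructor
      · rintro ⟨⟨h1, _⟩, h2⟩
        exact ⟨h1, h2⟩
      · rintro ⟨h1, h2⟩
        refine ⟨⟨h1, ?_⟩, h2⟩
        rw [← Nat.div_lt_iff_lt_mul hk, h2]
        exact hj
    rw [e1]
    refine le_trans ?_ (hX (blk n (m₁ + m₂) j)).2
    rw [pBlk_in ⟨j, hj, fun x hx => by
      unfold blk at hx
      exact (mem_filter.1 hx).2⟩]
    rw [blk_card hk ((Nat.mul_le_mul_right _ (by omega : j + 1 ≤ n₂)).trans hsz)]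
    push_cast
    linarith
  have h3 : ∑ j ∈ range n₂, ∑ x ∈ (ini n (n₂ * (m₁ + m₂))).filter
      (fun x => x.val / (m₁ + m₂) = j), y x = ∑ x ∈ ini n (n₂ * (m₁ + m₂)), y x := by
    apply sum_fiberwise_of_maps_to
    intro x hx
    unfold ini at hx
    rw [mem_filter] at hx
    rw [mem_range, Nat.div_lt_iff_lt_mul hk]
    exact hx.2
  have h4 : (n₂ : ℝ) * m₂ ≤ ∑ x ∈ ini n (n₂ * (m₁ + m₂)), y x := by
    rw [← h3]
    have := sum_le_sum h2
    rwa [sum_const, card_range, nsmul_eq_mul] at this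
  have h5 : ∑ s ∈ A, y s ≤ ∑ s ∈ rst n (n₂ * (m₁ + m₂)), y s :=
    sum_le_sum_of_subset_of_nonneg hAR (fun s _ _ => (hy s).1)
  have h6 : ∑ s ∈ ini n (n₂ * (m₁ + m₂)), y s + ∑ s ∈ rst n (n₂ * (m₁ + m₂)), y s = ∑ s, y s := by
    unfold ini rst
    exact sum_filter_add_sum_filter_not _ _ _
  push_cast at hsum
  linarith

end Inputs

end Pool.Agent.Y591.SK
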