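import Mathlib
import Pool.Agent.Y591.SK.Adv
import Pool.Agent.Y591.SK.Inst

set_option autoImplicit false

/-!
The lower bound for randomized value-oracle algorithms, and the dichotomy in the class sizes.
-/

namespace Pool.Agent.Y591.SK

open Finset
open Pool.Agent.Results.MP_1195b1_lc.OracleLowerBound (QueryAlg IsInput Feasible oracle
  SkewSupermodular pBase skew_base)
open scoped ENNReal Classical

variable {n : ℕ}

/-- the family of hidden sets -/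
theorem family {m₁ m₂ n₁ n₂ : ℕ} (hm₁ : 0 < m₁)
    (hgap : n₂ + 2 ≤ n₁) (hρ : 3 ≤ m₁ * (n₁ - n₂)) (hn : m₁ * n₁ + m₂ * n₂ = n) :
    ∃ (K : Finset (Finset (Fin n))) (m : ℕ), 0 < m ∧
      4 ^ (m₁ * (n₁ - n₂ - 1) / 4) * m ≤ 3 ^ (m₁ * (n₁ - n₂ - 1) / 4) * K.card ∧
      (∀ X, (K.filter (fun A => pHid ((m₁ + 1 : ℕ) : ℤ) A X ≠ pBase X)).card ≤ m) ∧
      ∀ A ∈ K, m₁ + 1 ≤ A.card ∧ A ⊆ rst n (n₂ * (m₁ + m₂)) := by
  have hle : n₂ ≤ n₁ := by omega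
  obtain ⟨g, rfl⟩ : ∃ g, n₁ = n₂ + (g + 2) := ⟨n₁ - n₂ - 2, by omega⟩
  have e1 : n₂ + (g + 2) - n₂ = g + 2 := by omega
  have e2 : n₂ + (g + 2) - n₂ - 1 = g + 1 := by omega
  rw [e2]
  rw [e1] at hρ
  set ρ := m₁ * (g + 2) with hρdef
  set x := m₁ * (g + 1) / 4 with hx
  set a := 3 * ρ / 4 with ha
  have hP1 : ρ = m₁ * g + 2 * m₁ := by rw [hρdef]; ring
  have hP2 : 4 * x ≤ m₁ * g + m₁ := by
    have h1 : m₁ * (g + 1) = m₁ * g + m₁ := by ring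
    rw [hx, h1]
    omega
  have h4a : 4 * a ≤ 3 * ρ := by omega
  have h4a' : 3 * ρ ≤ 4 * a + 3 := by omega
  have ham : m₁ + 1 ≤ a := by omega
  have hax : 2 * x + m₁ ≤ a := by omega
  have hRc : (rst n (n₂ * (m₁ + m₂))).card = ρ := by
    rw [rst_card (size_le hle hn)]
    have : m₁ * (n₂ + (g + 2)) + m₂ * n₂ = n₂ * (m₁ + m₂) + m₁ * (g + 2) := by ring
    omega
  refine ⟨powersetCard a (rst n (n₂ * (m₁ + m₂))), (ρ - x).choose (a - x),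
    Nat.choose_pos (by omega), ?_, fun X => ?_, fun A hA => ?_⟩
  · rw [card_powersetCard, hRc]
    exact choose_ratio x ρ a h4a (by omega)
  · have h1 : (powersetCard a (rst n (n₂ * (m₁ + m₂)))).filter
        (fun A => pHid ((m₁ + 1 : ℕ) : ℤ) A X ≠ pBase X) ⊆
        (powersetCard a (rst n (n₂ * (m₁ + m₂)))).filter (fun A => X ⊆ A ∧ x ≤ X.card) := by
      intro A hA
      rw [mem_filter] at hA ⊢
      refine ⟨hA.1, ?_⟩
      have h3 := pHid_visible (m₁ + 1) A X hA.2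
      have h4 : A.card = a := (mem_powersetCard.1 hA.1).2
      exact ⟨h3.1, by omega⟩
    refine (card_le_card h1).trans ?_
    by_cases hX : x ≤ X.card
    · have h2 : (powersetCard a (rst n (n₂ * (m₁ + m₂)))).filter
          (fun A => X ⊆ A ∧ x ≤ X.card) =
          (powersetCard a (rst n (n₂ * (m₁ + m₂)))).filter (fun A => X ⊆ A) := by
        apply filter_congr
        intro A _
        exact and_iff_left hX
      rw [h2]
      have h3 := count_sup (rst n (n₂ * (m₁ + m₂))) X a x hX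
      rw [hRc] at h3
      refine le_trans (le_of_eq ?_) h3
      congr
    · have h2 : (powersetCard a (rst n (n₂ * (m₁ + m₂)))).filter
          (fun A => X ⊆ A ∧ x ≤ X.card) = ∅ := by
        apply filter_eq_empty_iff.2
        intro A _ h
        exact hX h.2
      rw [h2, card_empty]
      exact Nat.zero_le _
  · rw [mem_powersetCard] at hA
    exact ⟨by rw [hA.2]; exact ham, hA.1⟩

theorem main_bound {m₁ m₂ n₁ n₂ : ℕ} (hm₁ : 0 < m₁) (hm₂ : 0 < m₂) (hn₂ : 0 < n₂)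
    (hgap : n₂ + 2 ≤ n₁) (hρ : 3 ≤ m₁ * (n₁ - n₂)) (hn : m₁ * n₁ + m₂ * n₂ = n)
    (D : RandAlg n) (δ : ℝ≥0∞)
    (hD : ∀ p₁ : Finset (Fin n) → ℤ, IsInput n m₁ m₂ n₁ n₂ p₁ (pBlk n₂ (m₁ + m₂)) →
      ErrorAtMost D m₁ m₂ n₁ n₂ p₁ (pBlk n₂ (m₁ + m₂)) δ) :
    (1 - 2 * δ) * 4 ^ (m₁ * (n₁ - n₂ - 1) / 4) ≤
      3 ^ (m₁ * (n₁ - n₂ - 1) / 4) *
        expectedCalls D (oracle pBase (pBlk n₂ (m₁ + m₂))) := by
  have hn₁ : 0 < n₁ := by omega
  have hle : n₂ ≤ n₁ := by omega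
  obtain ⟨K, m, hmpos, hch, hvis, hK⟩ := family (m₂ := m₂) hm₁ hgap hρ hn
  set x := m₁ * (n₁ - n₂ - 1) / 4 with hx
  have hbase := input_base hm₁ hm₂ hn₁ hn₂ hn
  have hfeas := feasible_base hm₁ hm₂ hn₁ hn₂ hle hn
  have hadv := adversary D (oracle pBase (pBlk n₂ (m₁ + m₂)))
    (fun A : Finset (Fin n) => oracle (pHid ((m₁ + 1 : ℕ) : ℤ) A) (pBlk n₂ (m₁ + m₂))) K m
    (by
      intro q
      rcases q with ⟨b, X⟩
      cases b
      · refine le_trans (card_le_card ?_) (hvis X)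
        intro A hA
        rw [mem_filter] at hA ⊢
        refine ⟨hA.1, ?_⟩
        have h3 := hA.2
        unfold oracle at h3
        simpa using h3
      · have h2 : K.filter (fun A : Finset (Fin n) =>
            oracle (pHid ((m₁ + 1 : ℕ) : ℤ) A) (pBlk n₂ (m₁ + m₂)) (true, X) ≠
              oracle pBase (pBlk n₂ (m₁ + m₂)) (true, X)) = ∅ := by
          apply filter_eq_empty_iff.2
          intro A _ h
          exact h rfl
        rw [h2, card_empty]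
        exact Nat.zero_le _) δ ((hD _ hbase).1 hfeas)
    (by
      intro A hA
      exact (hD _ (input_hid hm₁ hm₂ hn₁ hn₂ hn A (hK A hA).1)).2
        (infeasible_hid hm₁ hm₂ hn₁ hn₂ hle hn A (hK A hA).1 (hK A hA).2))
  have hch' : (4 : ℝ≥0∞) ^ x * (m : ℝ≥0∞) ≤ 3 ^ x * (K.card : ℝ≥0∞) := by
    exact_mod_cast hch
  set E := expectedCalls D (oracle pBase (pBlk n₂ (m₁ + m₂))) with hE
  have hfin : (m : ℝ≥0∞) * ((1 - 2 * δ) * 4 ^ x) ≤ (m : ℝ≥0∞) * (3 ^ x * E) := by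
    calc (m : ℝ≥0∞) * ((1 - 2 * δ) * 4 ^ x) = (1 - 2 * δ) * (4 ^ x * (m : ℝ≥0∞)) := by ring
      _ ≤ (1 - 2 * δ) * (3 ^ x * (K.card : ℝ≥0∞)) := mul_le_mul_right hch' _
      _ = 3 ^ x * ((1 - 2 * δ) * (K.card : ℝ≥0∞)) := by ring
      _ ≤ 3 ^ x * ((m : ℝ≥0∞) * E) := mul_le_mul_right hadv _
      _ = (m : ℝ≥0∞) * (3 ^ x * E) := by ring
  rwa [ENNReal.mul_le_mul_iff_right (by exact_mod_cast hmpos.ne') (ENNReal.natCast_ne_top _)]
    at hfin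

/-- feasibility has no short certificates -/
theorem cert_bound {m₁ m₂ n₁ n₂ : ℕ} (hm₁ : 0 < m₁) (hm₂ : 0 < m₂) (hn₂ : 0 < n₂)
    (hgap : n₂ + 2 ≤ n₁) (hρ : 3 ≤ m₁ * (n₁ - n₂)) (hn : m₁ * n₁ + m₂ * n₂ = n)
    (C : Finset (Finset (Fin n)))
    (hC : ∀ p₁ : Finset (Fin n) → ℤ, IsInput n m₁ m₂ n₁ n₂ p₁ (pBlk n₂ (m₁ + m₂)) →
      (∀ X ∈ C, p₁ X = pBase X) → Feasible n m₁ m₂ n₁ n₂ p₁ (pBlk n₂ (m₁ + m₂))) :
    4 ^ (m₁ * (n₁ - n₂ - 1) / 4) ≤ 3 ^ (m₁ * (n₁ - n₂ - 1) / 4) * C.card := by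
  have hn₁ : 0 < n₁ := by omega
  have hle : n₂ ≤ n₁ := by omega
  obtain ⟨K, m, hmpos, hch, hvis, hK⟩ := family (m₂ := m₂) hm₁ hgap hρ hn
  set x := m₁ * (n₁ - n₂ - 1) / 4 with hx
  have hsub : K ⊆ C.biUnion
      (fun X => K.filter (fun A => pHid ((m₁ + 1 : ℕ) : ℤ) A X ≠ pBase X)) := by
    intro A hA
    by_contra hcon
    rw [mem_biUnion] at hcon
    push Not at hcon
    apply infeasible_hid hm₁ hm₂ hn₁ hn₂ hle hn A (hK A hA).1 (hK A hA).2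
    apply hC _ (input_hid hm₁ hm₂ hn₁ hn₂ hn A (hK A hA).1)
    intro X hX
    by_contra hne
    exact hcon X hX (mem_filter.2 ⟨hA, hne⟩)
  have h1 := (card_le_card hsub).trans (card_biUnion_le_card_mul _ _ m (fun X _ => hvis X))
  have h2 : 4 ^ x * m ≤ (3 ^ x * C.card) * m := by
    calc 4 ^ x * m ≤ 3 ^ x * K.card := hch
      _ ≤ 3 ^ x * (C.card * m) := Nat.mul_le_mul_left _ h1
      _ = (3 ^ x * C.card) * m := by ring
  exact Nat.le_of_mul_le_mul_right h2 hmpos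

/-- all inputs are feasible if the class sizes differ by at most one -/
theorem all_feasible_aux {m₁ m₂ n₁ n₂ : ℕ} {p₁ p₂ : Finset (Fin n) → ℤ}
    (h : IsInput n m₁ m₂ n₁ n₂ p₁ p₂) (hle : n₂ ≤ n₁) (h1 : n₁ ≤ n₂ + 1) :
    Feasible n m₁ m₂ n₁ n₂ p₁ p₂ := by
  have h' : Pool.Agent.Results.MP_1195b1_lc.MatroidIntersection.IsInput m₁ m₂ n₁ n₂ p₁ p₂ :=
    ⟨h.hm₁, h.hm₂, h.hn₁, h.hn₂, by rw [Fintype.card_fin]; exact h.size, h.skew₁, h.skew₂,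
      h.bound⟩
  refine ((Pool.Agent.Results.MP_1195b1_lc.MatroidIntersection.result m₁ m₂ n₁ n₂ p₁ p₂ h').2
    hle).2.1.2 ?_
  intro F G hF hG
  have key : ∀ (p : Finset (Fin n) → ℤ) (F : Finset (Finset (Fin n))),
      (F : Set (Finset (Fin n))).PairwiseDisjoint id →
      (∀ X, p X ≤ X.card) → (∀ X, p X ≤ (m₁ + m₂ : ℕ)) →
      ∑ X ∈ F, (p X - (m₁ : ℤ)) ≤ m₂ * ((F.filter (fun X => (m₁ : ℤ) < p X)).card : ℤ) ∧
      ∑ X ∈ F, (p X - (m₁ : ℤ)) + m₁ * ((F.filter (fun X => (m₁ : ℤ) < p X)).card : ℤ) ≤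
        ((F.biUnion id).card : ℤ) := by
    intro p F hF hp1 hp2
    have hc : ((F.filter (fun X => (m₁ : ℤ) < p X)).card : ℤ) =
        ∑ X ∈ F, (if (m₁ : ℤ) < p X then 1 else 0) := by
      rw [sum_boole]
    have hu : ((F.biUnion id).card : ℤ) = ∑ X ∈ F, (X.card : ℤ) := by
      rw [card_biUnion (fun X hX Y hY hne => hF hX hY hne)]
      push_cast
      rfl
    rw [hc, hu, mul_sum, mul_sum, ← sum_add_distrib]
    constructor
    · apply sum_le_sum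
      intro X _
      have h2 := hp2 X
      push_cast at h2
      split_ifs with hX
      · omega
      · omega
    · apply sum_le_sum
      intro X _
      have h2 := hp1 X
      split_ifs with hX
      · omega
      · omega
  have hb1 : ∀ X, p₁ X ≤ X.card := fun X =>
    (le_max_left _ _).trans ((h.bound X).trans (min_le_left _ _))
  have hb2 : ∀ X, p₂ X ≤ X.card := fun X =>
    (le_max_right _ _).trans ((h.bound X).trans (min_le_left _ _))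
  have hb3 : ∀ X, p₁ X ≤ (m₁ + m₂ : ℕ) := fun X =>
    (le_max_left _ _).trans ((h.bound X).trans (min_le_right _ _))
  have hb4 : ∀ X, p₂ X ≤ (m₁ + m₂ : ℕ) := fun X =>
    (le_max_right _ _).trans ((h.bound X).trans (min_le_right _ _))
  obtain ⟨k1, k2⟩ := key p₁ F hF hb1 hb3
  obtain ⟨k3, k4⟩ := key p₂ G hG hb2 hb4
  have k5 := Finset.card_union_add_card_inter (F.biUnion id) (G.biUnion id)
  have k6 := card_le_univ (F.biUnion id ∪ G.biUnion id)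
  rw [Fintype.card_fin] at k6
  have k7 := h.size
  set f := (F.filter (fun X => (m₁ : ℤ) < p₁ X)).card with hf
  set g := (G.filter (fun X => (m₁ : ℤ) < p₂ X)).card with hg
  set α := ∑ X ∈ F, (p₁ X - (m₁ : ℤ)) with hα
  set β := ∑ X ∈ G, (p₂ X - (m₁ : ℤ)) with hβ
  have hI : (F.biUnion id ∩ G.biUnion id).card = (F.biUnion id ∩ G.biUnion id).card := rfl
  by_cases hfg : f + g ≤ n₂
  · have h2 : (m₂ : ℤ) * f + m₂ * g ≤ m₂ * n₂ := by
      rw [← mul_add]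
      apply mul_le_mul_of_nonneg_left _ (by positivity)
      exact_mod_cast hfg
    push_cast
    have h3 : (0 : ℤ) ≤ ((F.biUnion id ∩ G.biUnion id).card : ℤ) := by positivity
    linarith
  · have h2 : (m₁ : ℤ) * n₁ ≤ m₁ * f + m₁ * g := by
      rw [← mul_add]
      apply mul_le_mul_of_nonneg_left _ (by positivity)
      have : n₁ ≤ f + g := by omega
      exact_mod_cast this
    have k5' : ((F.biUnion id ∪ G.biUnion id).card : ℤ) +
        ((F.biUnion id ∩ G.biUnion id).card : ℤ) =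
        ((F.biUnion id).card : ℤ) + ((G.biUnion id).card : ℤ) := by exact_mod_cast k5
    have k6' : ((F.biUnion id ∪ G.biUnion id).card : ℤ) ≤ n := by exact_mod_cast k6
    have k7' : (m₁ : ℤ) * n₁ + m₂ * n₂ = n := by exact_mod_cast k7
    push_cast
    linarith

theorem input_symm {m₁ m₂ n₁ n₂ : ℕ} {p₁ p₂ : Finset (Fin n) → ℤ}
    (h : IsInput n m₁ m₂ n₁ n₂ p₁ p₂) : IsInput n m₂ m₁ n₂ n₁ p₁ p₂ :=
  ⟨h.hm₂, h.hm₁, h.hn₂, h.hn₁, by rw [add_comm]; exact h.size, h.skew₁, h.skew₂, fun X => by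
    rw [add_comm m₂ m₁]; exact h.bound X⟩

theorem feasible_symm {m₁ m₂ n₁ n₂ : ℕ} {p₁ p₂ : Finset (Fin n) → ℤ}
    (h : Feasible n m₁ m₂ n₁ n₂ p₁ p₂) : Feasible n m₂ m₁ n₂ n₁ p₁ p₂ :=
  Pool.Agent.Results.MP_1195b1_lc.MatroidIntersection.feasible_symm h

theorem all_feasible {m₁ m₂ n₁ n₂ : ℕ} {p₁ p₂ : Finset (Fin n) → ℤ}
    (h : IsInput n m₁ m₂ n₁ n₂ p₁ p₂) (h1 : n₁ ≤ n₂ + 1) (h2 : n₂ ≤ n₁ + 1) :
    Feasible n m₁ m₂ n₁ n₂ p₁ p₂ := by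
  rcases le_total n₂ n₁ with hle | hle
  · exact all_feasible_aux h hle h1
  · exact feasible_symm (all_feasible_aux (input_symm h) hle h2)

theorem error_symm {m₁ m₂ n₁ n₂ : ℕ} {D : RandAlg n} {p₁ p₂ : Finset (Fin n) → ℤ} {δ : ℝ≥0∞}
    (h : ErrorAtMost D m₁ m₂ n₁ n₂ p₁ p₂ δ) : ErrorAtMost D m₂ m₁ n₂ n₁ p₁ p₂ δ :=
  ⟨fun hf => h.1 (feasible_symm hf), fun hf => h.2 (fun hf' => hf (feasible_symm hf'))⟩

theorem disjoint_card (F : Finset (Finset (Fin n)))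
    (hF : (F : Set (Finset (Fin n))).PairwiseDisjoint id) : F.card ≤ n + 1 := by
  have h1 : ((F.erase ∅).biUnion id).card = ∑ X ∈ F.erase ∅, X.card := by
    rw [card_biUnion (fun X hX Y hY hne => hF (mem_of_mem_erase hX) (mem_of_mem_erase hY) hne)]
    rfl
  have h2 : ∑ _X ∈ F.erase ∅, 1 ≤ ∑ X ∈ F.erase ∅, X.card := by
    apply sum_le_sum
    intro X hX
    exact card_pos.2 (nonempty_iff_ne_empty.2 (ne_of_mem_erase hX))
  rw [sum_const, smul_eq_mul, mul_one] at h2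
  have h3 := card_le_univ ((F.erase ∅).biUnion id)
  rw [Fintype.card_fin] at h3
  have h4 : F.card - 1 ≤ (F.erase ∅).card := pred_card_le_card_erase
  omega

theorem infeasible_cert_aux {m₁ m₂ n₁ n₂ : ℕ} {p₁ p₂ : Finset (Fin n) → ℤ}
    (h : IsInput n m₁ m₂ n₁ n₂ p₁ p₂) (hle : n₂ ≤ n₁) (hf : ¬ Feasible n m₁ m₂ n₁ n₂ p₁ p₂) :
    ∃ F G : Finset (Finset (Fin n)), F.card + G.card ≤ 2 * n + 2 ∧
      ∀ q₁ q₂ : Finset (Fin n) → ℤ, IsInput n m₁ m₂ n₁ n₂ q₁ q₂ →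
        (∀ X ∈ F, q₁ X = p₁ X) → (∀ X ∈ G, q₂ X = p₂ X) → ¬ Feasible n m₁ m₂ n₁ n₂ q₁ q₂ := by
  have hin : ∀ {p₁ p₂ : Finset (Fin n) → ℤ}, IsInput n m₁ m₂ n₁ n₂ p₁ p₂ →
      Pool.Agent.Results.MP_1195b1_lc.MatroidIntersection.IsInput m₁ m₂ n₁ n₂ p₁ p₂ :=
    fun h => ⟨h.hm₁, h.hm₂, h.hn₁, h.hn₂, by rw [Fintype.card_fin]; exact h.size, h.skew₁,
      h.skew₂, h.bound⟩
  have h1 := ((Pool.Agent.Results.MP_1195b1_lc.MatroidIntersection.result m₁ m₂ n₁ n₂ p₁ p₂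
    (hin h)).2 hle).2.1
  have h2 : ¬ Pool.Agent.Results.MP_1195b1_lc.MatroidIntersection.Feasible m₁ m₂ n₁ n₂ p₁ p₂ := hf
  rw [h1] at h2
  push Not at h2
  obtain ⟨F, G, hF, hG, hlt⟩ := h2
  refine ⟨F, G, ?_, fun q₁ q₂ hq hq1 hq2 hfq => ?_⟩
  · have h3 := disjoint_card F hF
    have h4 := disjoint_card G hG
    omega
  · have h3 := ((Pool.Agent.Results.MP_1195b1_lc.MatroidIntersection.result m₁ m₂ n₁ n₂ q₁ q₂
      (hin hq)).2 hle).2.1.1 hfq F G hF hG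
    have e1 : ∑ X ∈ F, (q₁ X - (m₁ : ℤ)) = ∑ X ∈ F, (p₁ X - (m₁ : ℤ)) :=
      sum_congr rfl (fun X hX => by rw [hq1 X hX])
    have e2 : ∑ X ∈ G, (q₂ X - (m₁ : ℤ)) = ∑ X ∈ G, (p₂ X - (m₁ : ℤ)) :=
      sum_congr rfl (fun X hX => by rw [hq2 X hX])
    rw [e1, e2] at h3
    exact absurd h3 (not_le.2 hlt)

/-- infeasibility always has short certificates -/
theorem infeasible_cert {m₁ m₂ n₁ n₂ : ℕ} {p₁ p₂ : Finset (Fin n) → ℤ}
    (h : IsInput n m₁ m₂ n₁ n₂ p₁ p₂) (hf : ¬ Feasible n m₁ m₂ n₁ n₂ p₁ p₂) :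
    ∃ F G : Finset (Finset (Fin n)), F.card + G.card ≤ 2 * n + 2 ∧
      ∀ q₁ q₂ : Finset (Fin n) → ℤ, IsInput n m₁ m₂ n₁ n₂ q₁ q₂ →
        (∀ X ∈ F, q₁ X = p₁ X) → (∀ X ∈ G, q₂ X = p₂ X) → ¬ Feasible n m₁ m₂ n₁ n₂ q₁ q₂ := by
  rcases le_total n₂ n₁ with hle | hle
  · exact infeasible_cert_aux h hle hf
  · obtain ⟨F, G, h1, h2⟩ := infeasible_cert_aux (input_symm h) hle
      (fun hf' => hf (feasible_symm hf'))
    exact ⟨F, G, h1, fun q₁ q₂ hq hq1 hq2 hfq =>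
      h2 q₁ q₂ (input_symm hq) hq1 hq2 (feasible_symm hfq)⟩

theorem growth (p : Polynomial ℕ) (N A B : ℕ) :
    ∃ t : ℕ, 1 ≤ t ∧ N * p.eval (A * t + B) * 3 ^ t < 4 ^ t := by
  have hb : ∀ x y : ℕ, 1 ≤ x → y ≤ x → p.eval y ≤ p.eval 1 * x ^ p.natDegree := by
    intro x y hx hyx
    rw [Polynomial.eval_eq_sum_range, Polynomial.eval_eq_sum_range, Finset.sum_mul]
    apply Finset.sum_le_sum
    intro i hi
    rw [Finset.mem_range] at hi
    have h1 : y ^ i ≤ x ^ p.natDegree :=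
      (Nat.pow_le_pow_left hyx i).trans (Nat.pow_le_pow_right hx (by omega))
    simpa using Nat.mul_le_mul_left (p.coeff i) h1
  set c := p.eval 1 with hc
  set d := p.natDegree with hd
  set C := A + B + 1 with hC
  have ht : Filter.Tendsto (fun t : ℕ => (t : ℝ) ^ d / (4 / 3 : ℝ) ^ t) Filter.atTop
      (nhds 0) := tendsto_pow_const_div_const_pow_of_one_lt d (by norm_num)
  have hpos : (0 : ℝ) < 1 / ((N * c * C ^ d : ℕ) + 1 : ℝ) := by positivity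
  have hev := ht.eventually (gt_mem_nhds hpos)
  obtain ⟨T, hT⟩ := Filter.eventually_atTop.mp hev
  refine ⟨T + 1, by omega, ?_⟩
  set t := T + 1 with htd
  have h1 := hT t (by omega)
  have h43 : (0 : ℝ) < (4 / 3 : ℝ) ^ t := by positivity
  rw [div_lt_div_iff₀ h43 (by positivity), one_mul] at h1
  have h2 : p.eval (A * t + B) ≤ c * (C * t) ^ d := by
    apply hb
    · have : 1 ≤ C := by omega
      exact Nat.mul_pos (by omega) (by omega)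
    · have h3 : B ≤ B * t := Nat.le_mul_of_pos_right _ (by omega)
      have h4 : C * t = A * t + B * t + t := by rw [hC]; ring
      omega
  have h3 : N * p.eval (A * t + B) * 3 ^ t ≤ (N * c * C ^ d) * t ^ d * 3 ^ t := by
    apply Nat.mul_le_mul_right
    calc N * p.eval (A * t + B) ≤ N * (c * (C * t) ^ d) := Nat.mul_le_mul_left _ h2
      _ = (N * c * C ^ d) * t ^ d := by rw [mul_pow]; ring
  refine lt_of_le_of_lt h3 ?_
  have h4 : ((N * c * C ^ d : ℕ) : ℝ) * (t : ℝ) ^ d * 3 ^ t < 4 ^ t := by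
    have h5 : ((N * c * C ^ d : ℕ) : ℝ) * (t : ℝ) ^ d ≤
        (t : ℝ) ^ d * (((N * c * C ^ d : ℕ) : ℝ) + 1) := by
      have : (0 : ℝ) ≤ (t : ℝ) ^ d := by positivity
      nlinarith
    have h6 : ((N * c * C ^ d : ℕ) : ℝ) * (t : ℝ) ^ d < (4 / 3 : ℝ) ^ t := lt_of_le_of_lt h5 h1
    have h7 : (4 / 3 : ℝ) ^ t * 3 ^ t = 4 ^ t := by
      rw [← mul_pow]
      norm_num
    calc ((N * c * C ^ d : ℕ) : ℝ) * (t : ℝ) ^ d * 3 ^ t < (4 / 3 : ℝ) ^ t * 3 ^ t :=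
          mul_lt_mul_of_pos_right h6 (by positivity)
      _ = 4 ^ t := h7
  exact_mod_cast h4

/-- for a gap of at least two there is no algorithm with polynomially many oracle calls -/
theorem no_polynomial {m₂ n₁ n₂ : ℕ} (hm₂ : 0 < m₂) (hn₂ : 0 < n₂) (hgap : n₂ + 2 ≤ n₁)
    (δ : ℝ≥0∞) (hδ : δ < 1 / 2) (p : Polynomial ℕ)
    (D : ∀ n : ℕ, ℕ → RandAlg n)
    (hD : ∀ (n m₁ : ℕ) (p₁ p₂ : Finset (Fin n) → ℤ), IsInput n m₁ m₂ n₁ n₂ p₁ p₂ →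
      expectedCalls (D n m₁) (oracle p₁ p₂) ≤ ((p.eval n : ℕ) : ℝ≥0∞) ∧
      ErrorAtMost (D n m₁) m₁ m₂ n₁ n₂ p₁ p₂ δ) : False := by
  have hδ2 : (1 - 2 * δ : ℝ≥0∞) ≠ 0 := by
    rw [Ne, tsub_eq_zero_iff_le, not_le]
    calc 2 * δ < 2 * (1 / 2) :=
          ENNReal.mul_lt_mul_right (by norm_num) (by norm_num) hδ
      _ = 1 := by
          rw [one_div]
          exact ENNReal.mul_inv_cancel (by norm_num) (by norm_num)
  obtain ⟨N, hN⟩ := ENNReal.exists_inv_nat_lt hδ2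
  obtain ⟨t, ht1, ht⟩ := growth p N (4 * n₁) (m₂ * n₂)
  have hρ : 3 ≤ 4 * t * (n₁ - n₂) := by
    have : 4 * 1 * 2 ≤ 4 * t * (n₁ - n₂) :=
      Nat.mul_le_mul (Nat.mul_le_mul_left _ ht1) (by omega)
    omega
  have hmain := main_bound (m₁ := 4 * t) (by omega) hm₂ hn₂ hgap hρ rfl
    (D _ (4 * t)) δ (fun p₁ h => (hD _ _ p₁ _ h).2)
  have hx : 4 * t * (n₁ - n₂ - 1) / 4 = t * (n₁ - n₂ - 1) := by
    rw [mul_assoc]
    exact Nat.mul_div_cancel_left _ (by norm_num)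
  rw [hx] at hmain
  set x := t * (n₁ - n₂ - 1) with hxd
  have hxt : t ≤ x := by
    rw [hxd]
    exact Nat.le_mul_of_pos_right _ (by omega)
  have hcalls := (hD _ (4 * t) _ _ (input_base (m₁ := 4 * t) (by omega) hm₂ (by omega) hn₂ rfl)).1
  set P := p.eval (4 * t * n₁ + m₂ * n₂) with hP
  have hPe : p.eval (4 * n₁ * t + m₂ * n₂) = P := by
    rw [hP]
    congr 2
    ring
  rw [hPe] at ht
  have hN0 : (N : ℝ≥0∞) ≠ 0 := by
    intro h0
    rw [h0, ENNReal.inv_zero] at hN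
    exact absurd hN (by simp)
  have h1 : (4 : ℝ≥0∞) ^ x ≤ (N : ℝ≥0∞) * (3 ^ x * (P : ℝ≥0∞)) := by
    calc (4 : ℝ≥0∞) ^ x = (N : ℝ≥0∞) * ((N : ℝ≥0∞)⁻¹ * 4 ^ x) := by
          rw [← mul_assoc, ENNReal.mul_inv_cancel hN0 (ENNReal.natCast_ne_top _), one_mul]
      _ ≤ (N : ℝ≥0∞) * ((1 - 2 * δ) * 4 ^ x) :=
          mul_le_mul_right (mul_le_mul_left hN.le _) _
      _ ≤ (N : ℝ≥0∞) * (3 ^ x * (P : ℝ≥0∞)) :=
          mul_le_mul_right (hmain.trans (mul_le_mul_right hcalls _)) _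
  have h2 : 4 ^ x ≤ N * (3 ^ x * P) := by exact_mod_cast h1
  obtain ⟨y, hy⟩ : ∃ y, x = t + y := ⟨x - t, by omega⟩
  rw [hy, pow_add, pow_add] at h2
  have h3 : 3 ^ y ≤ 4 ^ y := Nat.pow_le_pow_left (by norm_num) y
  have h4 : N * (3 ^ t * 3 ^ y * P) < 4 ^ t * 4 ^ y := by
    calc N * (3 ^ t * 3 ^ y * P) = (N * P * 3 ^ t) * 3 ^ y := by ring
      _ ≤ (N * P * 3 ^ t) * 4 ^ y := Nat.mul_le_mul_left _ h3
      _ < 4 ^ t * 4 ^ y := Nat.mul_lt_mul_of_pos_right ht (by positivity)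
  omega

/-- the algorithm which always outputs `true` -/
theorem trivial_alg (f : Bool × Finset (Fin n) → ℤ) :
    expectedCalls (PMF.pure (QueryAlg.output true) : RandAlg n) f = 0 ∧
      probability (PMF.pure (QueryAlg.output true) : RandAlg n) f false = 0 := by
  constructor
  · unfold expectedCalls
    rw [ENNReal.tsum_eq_zero]
    intro T
    by_cases h : T = QueryAlg.output true
    · rw [h]
      have : (QueryAlg.output true : QueryAlg (Bool × Finset (Fin n)) ℤ Bool).calls f = 0 := rfl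
      rw [this]
      simp
    · rw [PMF.pure_apply_of_ne _ _ h, zero_mul]
  · unfold probability
    rw [PMF.toOuterMeasure_pure_apply, if_neg]
    intro h
    have h' : (QueryAlg.output true : QueryAlg (Bool × Finset (Fin n)) ℤ Bool).run f = false := h
    exact Bool.noConfusion h'

theorem dichotomy (n₁ n₂ : ℕ) (hn₁ : 0 < n₁) (hn₂ : 0 < n₂) (δ : ℝ≥0∞) (hδ : δ < 1 / 2) :
    (∃ (p : Polynomial ℕ) (D : ∀ n : ℕ, ℕ → ℕ → RandAlg n),
      ∀ (n m₁ m₂ : ℕ) (p₁ p₂ : Finset (Fin n) → ℤ), IsInput n m₁ m₂ n₁ n₂ p₁ p₂ →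
        expectedCalls (D n m₁ m₂) (oracle p₁ p₂) ≤ ((p.eval n : ℕ) : ℝ≥0∞) ∧
        ErrorAtMost (D n m₁ m₂) m₁ m₂ n₁ n₂ p₁ p₂ δ) ↔ n₁ ≤ n₂ + 1 ∧ n₂ ≤ n₁ + 1 := by
  constructor
  · rintro ⟨p, D, hD⟩
    by_contra hcon
    have hcases : n₂ + 2 ≤ n₁ ∨ n₁ + 2 ≤ n₂ := by omega
    rcases hcases with hgap | hgap
    · exact no_polynomial (m₂ := 1) one_pos hn₂ hgap δ hδ p (fun n m₁ => D n m₁ 1)
        (fun n m₁ p₁ p₂ h => hD n m₁ 1 p₁ p₂ h)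
    · refine no_polynomial (m₂ := 1) one_pos hn₁ hgap δ hδ p (fun n m₁ => D n 1 m₁)
        (fun n m₁ p₁ p₂ h => ?_)
      have h1 := hD n 1 m₁ p₁ p₂ (input_symm h)
      exact ⟨h1.1, error_symm h1.2⟩
  · rintro ⟨h1, h2⟩
    refine ⟨0, fun n _ _ => PMF.pure (QueryAlg.output true), fun n m₁ m₂ p₁ p₂ h => ?_⟩
    obtain ⟨h3, h4⟩ := trivial_alg (oracle p₁ p₂)
    refine ⟨by rw [h3]; exact zero_le, fun _ => by rw [h4]; exact zero_le, fun hf => ?_⟩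
    exact absurd (all_feasible h h1 h2) hf

end Pool.Agent.Y591.SK
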